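import Mathlib
import Pool.Agent.W931.LC.Props

set_option autoImplicit false

/-!
# The successors of the singular limits stay regular
-/

namespace Pool.Agent.W479.LC

open Cardinal Pool.Agent.Helper669.Forcing Pool.Agent.Helper669.K Pool.Agent.Helper669.U
  Pool.Agent.Helper669.V Pool.Agent.W931.KH Pool.Agent.W931.LC

/-- The condition with the coordinates `≤ i` given by `c` and the other ones by `q`. -/
noncomputable def ext (Q : Par) (q : Q.Cd) (i : I) (c : ∀ k : Set.Iic i, Co (Q.mu k) (Q.ka k)) : Q.Cd :=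
  fun k => if h : k ≤ i then c ⟨k, h⟩ else q k

theorem mix_eq (Q : Par) (q b : Q.Cd) (i : I) : Q.mix i b q = ext Q q i (fun k => b k) := by
  funext k
  unfold Par.mix ext
  by_cases h : k ≤ i
  · rw [if_pos h, dif_pos h]
  · rw [if_neg h, dif_neg h]

theorem mix_le (Q : Par) {q b : Q.Cd} (i : I) (h : b ≤ q) : Q.mix i b q ≤ q := by
  intro k
  unfold Par.mix
  by_cases hk : k ≤ i
  · rw [if_pos hk]; exact h k
  · rw [if_neg hk]

theorem le_mix (Q : Par) {q b : Q.Cd} (i : I) (h : b ≤ q) : b ≤ Q.mix i b q := by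
  intro k
  unfold Par.mix
  by_cases hk : k ≤ i
  · rw [if_pos hk]
  · rw [if_neg hk]; exact h k

theorem main_lemma (h1 : S_FUS) (h2 : S_CARD1) (hG : GCH) (Q : Par) (A : Set I)
    (τ : Cardinal.{0}) (hτ0 : ℵ₀ ≤ τ) (hA : #A ≤ τ) (hka : ∀ i ∈ A, Q.ka i ≤ τ)
    (hsup : τ ≤ Cardinal.sum fun i : A => Q.ka i) (p : Q.Cd) :
    p ∈ StaysRegular Q.Cd (Order.succ τ) := by
  classical
  intro ν hν R
  rw [mem_fimp]
  intro q hq hfun
  have hreg := Cardinal.isRegular_succ hτ0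
  have hντ : ν ≤ τ := Order.lt_succ_iff.1 hν
  obtain ⟨b00, -⟩ := bdd_ord hreg ∅ (by
    rw [Cardinal.mk_eq_zero]
    exact aleph0_pos.trans_le (hτ0.trans (Order.le_succ _)))
  rcases isEmpty_or_nonempty ν.out with hE | hne
  · exact ⟨q, le_rfl, mem_fex_of_mem b00
      (down_fall fun _ => down_fall fun _ => down_fimp _ _) (fun x => (hE.false x).elim)⟩
  have hcard : #ν.out ≤ #(Σ i : A, (Q.ka i).out) := by
    rw [Cardinal.mk_out, Cardinal.mk_sigma]
    simp only [Cardinal.mk_out]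
    exact hντ.trans hsup
  obtain ⟨f⟩ := Cardinal.le_def _ _ |>.1 hcard
  let g : (Σ i : A, (Q.ka i).out) → ν.out := Function.invFun f
  have hg : Function.Surjective g := Function.invFun_surjective f.injective
  let L : I → Type := fun i => {_z : (Q.ka i).out // i ∈ A}
  have hL : ∀ i, #(L i) ≤ Q.ka i := by
    intro i
    have h3 : #(L i) ≤ #((Q.ka i).out) := Cardinal.mk_subtype_le _
    rwa [Cardinal.mk_out] at h3
  let X : ∀ i, L i → ν.out := fun i z => g ⟨⟨i, z.2⟩, z.1⟩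
  let D : ∀ i, L i → Set Q.Cd := fun i z =>
    {r | (∃ y, r ∈ meets (R (X i z) y)) ∨ ∀ s ≤ r, s ∉ IsFun R}
  obtain ⟨q', hq', hF⟩ := h1 Q L hL D
    (by
      rintro i x r (⟨y, hy⟩ | hr) s hs
      · exact Or.inl ⟨y, down_meets _ _ hy _ hs⟩
      · exact Or.inr fun s' hs' => hr s' (hs'.trans hs))
    (by
      intro i x r
      by_cases h : ∃ s ≤ r, s ∈ IsFun R
      · obtain ⟨s, hs, hsf⟩ := h
        obtain ⟨s', hs', y, hy⟩ := IsFun.total hsf (X i x)
        exact ⟨s', hs'.trans hs, Or.inl ⟨y, hy⟩⟩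
      · push Not at h
        exact ⟨r, le_rfl, Or.inr h⟩) q
  have hfun' : q' ∈ IsFun R := down_IsFun R _ hfun _ hq'
  -- the values
  let Φ : (Σ i : A, L i × (∀ k : Set.Iic i.1, Co (Q.mu k) (Q.ka k))) →
      (Order.succ τ).ord.ToType := fun z =>
    if h : ∃ y, ext Q q' z.1 z.2.2 ∈ IsFun R ∧ ext Q q' z.1 z.2.2 ∈ meets (R (X z.1 z.2.1) y) then
      h.choose else b00
  have hcard2 : #(Set.range Φ) < Order.succ τ := by
    rw [Order.lt_succ_iff]
    refine Cardinal.mk_range_le.trans ?_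
    rw [Cardinal.mk_sigma]
    have h3 : ∀ i : A, #(L i × (∀ k : Set.Iic i.1, Co (Q.mu k) (Q.ka k))) ≤ τ := by
      intro i
      rw [Cardinal.mk_prod, Cardinal.lift_id, Cardinal.lift_id]
      refine (mul_le_mul' ((hL i).trans (hka i i.2)) ((h2 hG Q i).trans (hka i i.2))).trans ?_
      rw [Cardinal.mul_eq_self hτ0]
    refine (Cardinal.sum_le_sum _ _ h3).trans ?_
    rw [Cardinal.sum_const']
    refine (mul_le_mul' hA le_rfl).trans ?_
    rw [Cardinal.mul_eq_self hτ0]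
  obtain ⟨b0, hb0⟩ := bdd_ord hreg _ hcard2
  refine ⟨q', hq', mem_fex_of_mem b0 (down_fall fun _ => down_fall fun _ => down_fimp _ _) ?_⟩
  intro x y
  rw [mem_fimp]
  intro r hr hxy
  refine ⟨r, le_rfl, ?_⟩
  rw [mem_fground]
  obtain ⟨⟨⟨i, hi⟩, z⟩, rfl⟩ := hg x
  obtain ⟨b', hb', hD⟩ := hF i ⟨z, hi⟩ r
  have hbq : b' ≤ q' := hb'.trans hr
  have hm1 : Q.mix i b' q' ≤ q' := mix_le Q i hbq
  have hm2 : b' ≤ Q.mix i b' q' := le_mix Q i hbq
  have hmf : Q.mix i b' q' ∈ IsFun R := down_IsFun R _ hfun' _ hm1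
  rcases hD with ⟨y', hy'⟩ | hD
  · have hyy : y = y' := IsFun.unique (down_IsFun R _ hmf _ hm2) (down_meets _ _ hxy _ hb')
      (down_meets _ _ hy' _ hm2)
    subst hyy
    apply hb0
    refine ⟨⟨⟨i, hi⟩, ⟨z, hi⟩, fun k => b' k⟩, ?_⟩
    rw [mix_eq] at hmf hy'
    have h3 : ∃ y, ext Q q' i (fun k => b' k) ∈ IsFun R ∧
        ext Q q' i (fun k => b' k) ∈ meets (R (X i ⟨z, hi⟩) y) := ⟨y, hmf, hy'⟩
    change (if h : ∃ y, ext Q q' i (fun k => b' k) ∈ IsFun R ∧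
        ext Q q' i (fun k => b' k) ∈ meets (R (X i ⟨z, hi⟩) y) then h.choose else b00) = y
    rw [dif_pos h3]
    exact IsFun.unique h3.choose_spec.1 h3.choose_spec.2 hy'
  · exact absurd hmf (hD _ le_rfl)

theorem tREG4 (h1 : S_FUS) (h2 : S_CARD1) : S_REG4 := by
  intro hG Q p
  have hne : Nonempty I := by
    rw [← Cardinal.mk_ne_zero_iff, mk_ord_toType]
    exact (aleph0_pos.trans_le (aleph0_le_aleph 1)).ne'
  obtain ⟨i0⟩ := hne
  have h3 : ℵ₁ ≤ Q.top := (Q.aleph1_lt_ka i0).le.trans (Q.ka_le_top i0)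
  refine main_lemma h1 h2 hG Q Set.univ Q.top ((aleph0_le_aleph 1).trans h3) ?_
    (fun i _ => Q.ka_le_top i) ?_ p
  · rw [Cardinal.mk_univ, mk_ord_toType]; exact h3
  · exact ciSup_le' fun j => Cardinal.le_sum (fun i : (Set.univ : Set I) => Q.ka i) ⟨j, trivial⟩

theorem tREG3 (h1 : S_FUS) (h2 : S_CARD1) (h3 : S_REG6) : S_REG3 := by
  intro hG Q j p
  by_cases hj : ∃ i0, i0 < j
  · obtain ⟨i0, hi0⟩ := hj
    refine main_lemma h1 h2 hG Q (Set.Iio j) (Q.lam j) (Q.aleph0_le_lam j) ?_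
      (fun i hi => Q.ka_le_lam hi) ?_ p
    · have h4 : #(Set.Iio j) < ℵ₁ := by simpa using Cardinal.mk_Iio_lt j
      exact h4.le.trans (Q.lam_ge j)
    · refine max_le ?_ ?_
      · exact (Q.aleph1_lt_ka i0).le.trans
          (Cardinal.le_sum (fun i : (Set.Iio j : Set I) => Q.ka i) ⟨i0, hi0⟩)
      · exact ciSup_le' fun i => Cardinal.le_sum (fun i : (Set.Iio j : Set I) => Q.ka i) i
  · push Not at hj
    refine h3 Q _ (Cardinal.isRegular_succ (Q.aleph0_le_lam j)) (fun i => ?_) p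
    have h4 : Order.succ (Q.lam j) ≤ Q.mu j :=
      (Order.le_succ _).trans (Order.le_succ _)
    rcases eq_or_lt_of_le (hj i) with rfl | h5
    · exact h4
    · exact h4.trans (Q.mu_mono h5).le

end Pool.Agent.W479.LC
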